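import Pool.Agent.helper58.CRO.SpecJ

/-!
# Row cro:JGG
-/

open scoped Manifold ContDiff Topology ENNReal
open MeasureTheory Set

noncomputable section

namespace Pool.Agent.CRO

theorem JGG_tangent (n : ℕ) (T t : ℝ) (hT : 0 ≤ T) (ht : 0 ≤ t) (hn : 1 ≤ n) :
    (n + 1) * T * t ^ n - n * t ^ (n + 1) ≤ T ^ (n + 1) := by
  rcases ht.eq_or_lt with h | h
  · rw [← h, zero_pow (by omega), zero_pow (by omega)]
    simp only [mul_zero, sub_zero]
    positivity
  · have h1 : (-2 : ℝ) ≤ T / t - 1 := by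
      have : 0 ≤ T / t := by positivity
      linarith
    have h2 := one_add_mul_le_pow h1 (n + 1)
    have h3 : (1 + (T / t - 1)) ^ (n + 1) = T ^ (n + 1) / t ^ (n + 1) := by
      rw [← div_pow]
      congr 1
      ring
    rw [h3, le_div_iff₀ (by positivity)] at h2
    push_cast at h2
    have h4 : (1 + ((n : ℝ) + 1) * (T / t - 1)) * t ^ (n + 1) =
        (n + 1) * T * t ^ n - n * t ^ (n + 1) := by
      field_simp
      ring
    linarith

theorem JGG_avg (n : ℕ) (hn : 1 ≤ n) (τ : ℝ → ℝ) (hτ : Antitone τ) (hτ0 : ∀ s, 0 ≤ τ s)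
    (a b : ℝ) (hab : a ≤ b) : ∃ A B : ℝ, A * (b - a) = (∫ s in a..b, τ s ^ n) ∧
      B * (b - a) = (∫ s in a..b, τ s ^ (n + 1)) ∧ τ b ^ n ≤ A ∧ A ≤ τ a ^ n ∧ 0 ≤ B ∧
      ∀ T : ℝ, 0 ≤ T → (n + 1) * T * A - n * B ≤ T ^ (n + 1) := by
  have hpow : ∀ m : ℕ, Antitone fun s => τ s ^ m := fun m x y hxy =>
    pow_le_pow_left₀ (hτ0 y) (hτ hxy) m
  rcases hab.eq_or_lt with h | h
  · subst h
    refine ⟨τ a ^ n, τ a ^ (n + 1), by simp, by simp, le_rfl, le_rfl,
      pow_nonneg (hτ0 a) _, fun T hT => JGG_tangent n T (τ a) hT (hτ0 a) hn⟩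
  · have hba : 0 < b - a := by linarith
    have hi : ∀ m : ℕ, IntervalIntegrable (fun s => τ s ^ m) volume a b := fun m =>
      (hpow m).intervalIntegrable
    have hlow : τ b ^ n * (b - a) ≤ ∫ s in a..b, τ s ^ n := by
      have h1 : (∫ _s in a..b, τ b ^ n) ≤ ∫ s in a..b, τ s ^ n :=
        intervalIntegral.integral_mono_on hab (by simp) (hi n) (fun x hx => hpow n hx.2)
      rw [intervalIntegral.integral_const, smul_eq_mul] at h1
      linarith
    have hup : (∫ s in a..b, τ s ^ n) ≤ τ a ^ n * (b - a) := by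
      have h1 : (∫ s in a..b, τ s ^ n) ≤ ∫ _s in a..b, τ a ^ n :=
        intervalIntegral.integral_mono_on hab (hi n) (by simp) (fun x hx => hpow n hx.1)
      rw [intervalIntegral.integral_const, smul_eq_mul] at h1
      linarith
    refine ⟨(∫ s in a..b, τ s ^ n) / (b - a), (∫ s in a..b, τ s ^ (n + 1)) / (b - a),
      div_mul_cancel₀ _ hba.ne', div_mul_cancel₀ _ hba.ne', ?_, ?_, ?_, ?_⟩
    · rw [le_div_iff₀ hba]
      exact hlow
    · rw [div_le_iff₀ hba]
      exact hup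
    · apply div_nonneg _ hba.le
      exact intervalIntegral.integral_nonneg hab (fun x _ => pow_nonneg (hτ0 x) _)
    · intro T hT
      have h1 : (∫ s in a..b, ((n + 1) * T * τ s ^ n - n * τ s ^ (n + 1))) ≤
          ∫ _s in a..b, T ^ (n + 1) :=
        intervalIntegral.integral_mono_on hab
          (((hi n).const_mul _).sub ((hi (n + 1)).const_mul _)) (by simp)
          (fun x _ => JGG_tangent n T (τ x) hT (hτ0 x) hn)
      rw [intervalIntegral.integral_sub ((hi n).const_mul _) ((hi (n + 1)).const_mul _),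
        intervalIntegral.integral_const_mul, intervalIntegral.integral_const_mul,
        intervalIntegral.integral_const, smul_eq_mul] at h1
      have h2 : (n + 1) * T * ((∫ s in a..b, τ s ^ n) / (b - a)) -
          n * ((∫ s in a..b, τ s ^ (n + 1)) / (b - a)) =
          ((n + 1) * T * (∫ s in a..b, τ s ^ n) - n * ∫ s in a..b, τ s ^ (n + 1)) / (b - a) := by
        ring
      rw [h2, div_le_iff₀ hba]
      linarith

theorem JGG (h1 : IGE_stmt) (h2 : JON_stmt) (h3 : JNU_stmt) (h4 : VVP_stmt) (h5 : JVL_stmt) :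
    JGG_stmt := by
  intro n r0 𝒢 L R hn hE hL hR hRr hRL N θ τ mx hN hθ hτ hτ0 hint hmx
  obtain ⟨hX0, hcW, hkn, hk1, -, hkk, -⟩ := h3 n hn
  have hn1 : 1 ≤ n := by omega
  have hn0 : (0 : ℝ) < n := by exact_mod_cast (by omega : 0 < n)
  have hN0 : (0 : ℝ) < N := by exact_mod_cast (by omega : 0 < N)
  have hh : 0 < R / N := by positivity
  obtain ⟨⟨c0, C0, hc0, hC0, hvb⟩, -⟩ := h5 n r0 𝒢 R hn hR hRr
  have hvv : ∀ j ∈ Finset.Icc 1 N, 0 < vv 𝒢 R N j := by
    intro j hj
    have h6 := (hvb N j hN hj).1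
    have hj1 : (0 : ℝ) < j := by
      have := (Finset.mem_Icc.mp hj).1
      exact_mod_cast (by omega : 0 < j)
    have : 0 < c0 * (j * (R / N)) ^ (n - 1) * (R / N) := by positivity
    linarith
  obtain ⟨y, Lm, hy0, hymono, hthr, hfin⟩ := h1 n r0 𝒢 L R hn hE hL hR hRr hRL N θ hN hθ
  have hpow : ∀ m : ℕ, Antitone fun s => τ s ^ m := fun m x y hxy =>
    pow_le_pow_left₀ (hτ0 y) (hτ hxy) m
  have hav : ∀ k : ℕ, ∃ A B : ℝ, (1 ≤ k ∧ k < N) →
      (A * (y k - y (k - 1)) = (∫ s in (y (k - 1))..(y k), τ s ^ n) ∧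
      B * (y k - y (k - 1)) = (∫ s in (y (k - 1))..(y k), τ s ^ (n + 1)) ∧
      τ (y k) ^ n ≤ A ∧ A ≤ τ (y (k - 1)) ^ n ∧ 0 ≤ B ∧
      ∀ T : ℝ, 0 ≤ T → (n + 1) * T * A - n * B ≤ T ^ (n + 1)) := by
    intro k
    by_cases hk : 1 ≤ k ∧ k < N
    · have h6 : y (k - 1) ≤ y k := by
        have h7 := hymono (k - 1) (by omega)
        rwa [Nat.sub_add_cancel hk.1] at h7
      obtain ⟨A, B, h7⟩ := JGG_avg n hn1 τ hτ hτ0 (y (k - 1)) (y k) h6
      exact ⟨A, B, fun _ => h7⟩
    · exact ⟨0, 0, fun h => absurd h hk⟩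
  choose A' B' hAB using hav
  let A : ℕ → ℝ := fun k => if k = 0 then τ 0 ^ n else if k < N then A' k else 0
  let B : ℕ → ℝ := fun k => if 1 ≤ k ∧ k < N then B' k else 0
  have hA0 : A 0 = τ 0 ^ n := by simp [A]
  have hAk : ∀ k, 1 ≤ k → k < N → A k = A' k := by
    intro k hk1 hk2
    have : k ≠ 0 := by omega
    simp only [A, this, if_false, hk2, if_true]
  have hAN : ∀ k, N ≤ k → A k = 0 := by
    intro k hk
    have h6 : k ≠ 0 := by omega
    have h7 : ¬ k < N := by omega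
    simp only [A, h6, h7, if_false]
  have hBk : ∀ k, 1 ≤ k → k < N → B k = B' k := by
    intro k hk1 hk2
    simp only [B, hk1, hk2, and_self, if_true]
  have hAlow : ∀ k, 1 ≤ k → k < N → τ (y k) ^ n ≤ A k := by
    intro k hk1 hk2
    rw [hAk k hk1 hk2]
    exact (hAB k ⟨hk1, hk2⟩).2.2.1
  have hAup : ∀ k, 1 ≤ k → A k ≤ τ (y (k - 1)) ^ n := by
    intro k hk1
    by_cases hk2 : k < N
    · rw [hAk k hk1 hk2]
      exact (hAB k ⟨hk1, hk2⟩).2.2.2.1
    · rw [hAN k (by omega)]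
      exact pow_nonneg (hτ0 _) _
  have hApos : ∀ k, 0 ≤ A k := by
    intro k
    rcases Nat.eq_zero_or_pos k with h | h
    · rw [h, hA0]
      exact pow_nonneg (hτ0 _) _
    · by_cases hk2 : k < N
      · exact (pow_nonneg (hτ0 _) _).trans (hAlow k h hk2)
      · rw [hAN k (by omega)]
  have hAanti : Antitone A := by
    apply antitone_nat_of_succ_le
    intro k
    by_cases hk2 : k + 1 < N
    · rcases Nat.eq_zero_or_pos k with h | h
      · subst h
        have h6 := hAup 1 le_rfl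
        simp only [Nat.sub_self, hy0] at h6
        rw [hA0]
        exact h6
      · exact (hAup (k + 1) (by omega)).trans (hAlow k h (by omega))
    · rw [hAN (k + 1) (by omega)]
      exact hApos k
  have hBpos : ∀ k, 0 ≤ B k := by
    intro k
    by_cases hk : 1 ≤ k ∧ k < N
    · rw [hBk k hk.1 hk.2]
      exact (hAB k hk).2.2.2.2.1
    · simp only [B, hk, if_false]
      exact le_rfl
  have hfin' := hfin A B hAanti hApos (hAN N le_rfl) hBpos (by
    intro k hk1 hk2 T hT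
    rw [hAk k hk1 hk2, hBk k hk1 hk2]
    exact (hAB k ⟨hk1, hk2⟩).2.2.2.2.2 T hT)
  -- the sum of the B
  have hBsum : ∑ k ∈ Finset.Ico 1 N, B k * (y k - y (k - 1)) ≤
      ∫ s in Ioi (0 : ℝ), τ s ^ (n + 1) := by
    have h6 : ∑ k ∈ Finset.Ico 1 N, B k * (y k - y (k - 1)) =
        ∫ s in (y 0)..(y (N - 1)), τ s ^ (n + 1) := by
      rw [← intervalIntegral.sum_integral_adjacent_intervals
        (fun k _ => (hpow (n + 1)).intervalIntegrable), Finset.sum_Ico_eq_sum_range]
      apply Finset.sum_congr rfl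
      intro i hi
      rw [Finset.mem_range] at hi
      rw [hBk (1 + i) (by omega) (by omega), (hAB (1 + i) ⟨by omega, by omega⟩).2.1]
      have h7 : 1 + i - 1 = i := by omega
      rw [h7, add_comm 1 i]
    have hyN : ∀ k, k < N → 0 ≤ y k := by
      intro k
      induction k with
      | zero => intro _; rw [hy0]
      | succ k ih => intro hk; exact (ih (by omega)).trans (hymono k hk)
    have h8 : (0 : ℝ) ≤ y (N - 1) := hyN (N - 1) (by omega)
    rw [h6, hy0, intervalIntegral.integral_of_le h8]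
    apply setIntegral_mono_set hint
    · exact Filter.Eventually.of_forall (fun s => pow_nonneg (hτ0 s) _)
    · exact (HasSubset.Subset.eventuallyLE Ioc_subset_Ioi_self)
  -- JON for each shell
  have hJ : ∀ j ∈ Finset.Icc 1 N, 2 * kap (n - 1) * (((n : ℝ) - 1) / n) * vv 𝒢 R N j *
        ((∫ φ in (0 : ℝ)..(Real.pi / 2), τ (vv 𝒢 R N j / (R / N) * Real.sin φ ^ (n - 1)) ^ n *
          Real.sin φ ^ (n - 2)) - cW n * (τ (y (j - 1)) ^ n - A j)) ≤
      (∑ k ∈ Finset.Ico 1 j, (A k - A (k + 1)) * Lm k j) + A j * (kap n * vv 𝒢 R N j) := by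
    intro j hj
    obtain ⟨hj1, hjN⟩ := Finset.mem_Icc.mp hj
    have hv := hvv j hj
    refine h2 n hn j (vv 𝒢 R N j) (vv 𝒢 R N j / (R / N)) y (fun k => Lm k j) A
      (fun s => τ s ^ n) hj1 hv (by positivity) hy0 (fun k hk => hymono k (by omega)) (hpow n)
      (fun s => pow_nonneg (hτ0 s) _) ?_ (fun k _ _ => hAanti (Nat.le_succ k)) ?_ (hApos j)
      (hAup j hj1)
    · intro k hk1 hk2 c hc
      have h6 := hthr k j hk1 hk2 hjN c hc
      have h7 : 2 * kap (n - 1) * vv 𝒢 R N j * (y k / (n * (vv 𝒢 R N j / (R / N))) - BTc n c) =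
          2 * kap (n - 1) * (R / N * y k / n - BTc n c * vv 𝒢 R N j) := by
        field_simp
      rw [h7]
      exact h6
    · intro k hk1 hk2
      rw [hAk k hk1 (by omega)]
      exact (hAB k ⟨hk1, by omega⟩).1
  -- telescoping
  have htel : ∑ j ∈ Finset.Icc 1 N, (τ (y (j - 1)) ^ n - A j) ≤ τ 0 ^ n := by
    have h6 : ∀ m, m < N → ∑ j ∈ Finset.Icc 1 m, (τ (y (j - 1)) ^ n - A j) ≤
        τ 0 ^ n - τ (y m) ^ n := by
      intro m
      induction m with
      | zero => intro _; simp [hy0]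
      | succ m ih =>
        intro hm
        rw [Finset.sum_Icc_succ_top (by omega)]
        have h7 := ih (by omega)
        have h8 := hAlow (m + 1) (by omega) hm
        simp only [Nat.add_sub_cancel] at *
        linarith
    obtain ⟨M, rfl⟩ : ∃ M, N = M + 1 := ⟨N - 1, by omega⟩
    rw [Finset.sum_Icc_succ_top (by omega), hAN (M + 1) le_rfl]
    have h7 := h6 M (by omega)
    simp only [Nat.add_sub_cancel, sub_zero]
    linarith
  have hmain : (∑ j ∈ Finset.Icc 1 N, θ j * vv 𝒢 R N j *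
          (2 * kap (n - 1) * (((n : ℝ) - 1) / n) * ∫ φ in (0 : ℝ)..(Real.pi / 2),
            τ (vv 𝒢 R N j / (R / N) * Real.sin φ ^ (n - 1)) ^ n * Real.sin φ ^ (n - 2))) -
            kap n * mx * τ 0 ^ n ≤
      ∑ j ∈ Finset.Icc 1 N, θ j * ((∑ k ∈ Finset.Ico 1 j, (A k - A (k + 1)) * Lm k j) +
        A j * (kap n * vv 𝒢 R N j)) := by
    have h6 : ∑ j ∈ Finset.Icc 1 N, θ j * vv 𝒢 R N j * (kap n * (τ (y (j - 1)) ^ n - A j)) ≤
        kap n * mx * τ 0 ^ n := by
      have hmx0 : 0 < mx := by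
        have h7 : (1 : ℕ) ∈ Finset.Icc 1 N := Finset.mem_Icc.mpr ⟨le_rfl, hN⟩
        exact lt_of_lt_of_le (mul_pos (hθ 1) (hvv 1 h7)) (hmx 1 h7)
      calc ∑ j ∈ Finset.Icc 1 N, θ j * vv 𝒢 R N j * (kap n * (τ (y (j - 1)) ^ n - A j))
          ≤ ∑ j ∈ Finset.Icc 1 N, mx * (kap n * (τ (y (j - 1)) ^ n - A j)) := by
            apply Finset.sum_le_sum
            intro j hj
            apply mul_le_mul_of_nonneg_right (hmx j hj)
            have h7 := hAup j (Finset.mem_Icc.mp hj).1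
            apply mul_nonneg hkn.le
            linarith
        _ = kap n * mx * ∑ j ∈ Finset.Icc 1 N, (τ (y (j - 1)) ^ n - A j) := by
            rw [Finset.mul_sum]
            apply Finset.sum_congr rfl
            intro j _
            ring
        _ ≤ kap n * mx * τ 0 ^ n := by
            apply mul_le_mul_of_nonneg_left htel
            positivity
    have h8 : (∑ j ∈ Finset.Icc 1 N, θ j * vv 𝒢 R N j *
          (2 * kap (n - 1) * (((n : ℝ) - 1) / n) * ∫ φ in (0 : ℝ)..(Real.pi / 2),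
            τ (vv 𝒢 R N j / (R / N) * Real.sin φ ^ (n - 1)) ^ n * Real.sin φ ^ (n - 2))) -
        ∑ j ∈ Finset.Icc 1 N, θ j * vv 𝒢 R N j * (kap n * (τ (y (j - 1)) ^ n - A j)) ≤
        ∑ j ∈ Finset.Icc 1 N, θ j * ((∑ k ∈ Finset.Ico 1 j, (A k - A (k + 1)) * Lm k j) +
          A j * (kap n * vv 𝒢 R N j)) := by
      rw [← Finset.sum_sub_distrib]
      apply Finset.sum_le_sum
      intro j hj
      have h9 := mul_le_mul_of_nonneg_left (hJ j hj) (hθ j).le
      refine le_trans (le_of_eq ?_) h9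
      rw [hkk]
      ring
    linarith
  have hcK : 0 ≤ n * cK n := by
    unfold cK
    positivity
  refine le_trans ?_ hfin'
  apply mul_le_mul_of_nonneg_left _ hcK
  have h10 : (0 : ℝ) ≤ (n : ℝ) + 1 := by positivity
  have h11 := mul_le_mul_of_nonneg_left hmain h10
  have h12 := mul_le_mul_of_nonneg_left hBsum hk1.le
  linarith

end Pool.Agent.CRO
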