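import Pool.Agent.helper58.CRO.SpecJ

/-!
# Row cro:JLN
-/

open scoped Manifold ContDiff Topology ENNReal
open MeasureTheory Set

noncomputable section

namespace Pool.Agent.CRO

theorem JLN_rec (n : ℕ) (hn : 2 ≤ n) : cW (n + 2) = (((n : ℝ) - 1) / n) * cW n := by
  obtain ⟨k, rfl⟩ : ∃ k, n = k + 2 := ⟨n - 2, by omega⟩
  unfold cW
  have h1 : k + 2 + 2 - 2 = k + 2 := by omega
  have h2 : k + 2 - 2 = k := by omega
  rw [h1, h2, integral_sin_pow]
  simp only [Real.sin_zero, Real.cos_pi_div_two, mul_zero, sub_zero]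
  rw [zero_pow (by omega)]
  push_cast
  have h3 : ((k : ℝ) + 2 - 1) = (k : ℝ) + 1 := by ring
  rw [h3]
  ring

theorem JLN_two : cW 2 = Real.pi / 2 := by
  unfold cW
  simp

theorem JLN_three : cW 3 = 1 := by
  unfold cW
  simp [integral_sin]

theorem JLN_W (n : ℕ) (hn : 2 ≤ n) :
    ∫ x in (0 : ℝ)..1, x ^ (n - 2) * Real.sqrt (1 - x ^ 2) = cW n / n := by
  have hn0 : (n : ℝ) ≠ 0 := by
    have : n ≠ 0 := by omega
    exact_mod_cast this
  have hcont : Continuous fun x : ℝ => x ^ (n - 2) * Real.sqrt (1 - x ^ 2) := by fun_prop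
  have h1 := intervalIntegral.integral_comp_mul_deriv (a := 0) (b := Real.pi / 2)
    (f := Real.sin) (f' := Real.cos) (g := fun x : ℝ => x ^ (n - 2) * Real.sqrt (1 - x ^ 2))
    (fun x _ => Real.hasDerivAt_sin x) Real.continuous_cos.continuousOn hcont
  rw [Real.sin_zero, Real.sin_pi_div_two] at h1
  rw [← h1]
  have h2 : ∫ x in (0 : ℝ)..(Real.pi / 2),
      ((fun x : ℝ => x ^ (n - 2) * Real.sqrt (1 - x ^ 2)) ∘ Real.sin) x * Real.cos x =
      ∫ x in (0 : ℝ)..(Real.pi / 2), (Real.sin x ^ (n - 2) - Real.sin x ^ n) := by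
    apply intervalIntegral.integral_congr
    intro x hx
    rw [uIcc_of_le (by positivity)] at hx
    have hc : 0 ≤ Real.cos x := Real.cos_nonneg_of_mem_Icc ⟨by linarith [hx.1, Real.pi_pos], hx.2⟩
    have h3 : Real.sqrt (1 - Real.sin x ^ 2) = Real.cos x := by
      rw [← Real.cos_sq', Real.sqrt_sq hc]
    have h4 : Real.cos x * Real.cos x = 1 - Real.sin x ^ 2 := by
      rw [← Real.cos_sq' x]
      ring
    have h5 : Real.sin x ^ n = Real.sin x ^ (n - 2) * Real.sin x ^ 2 := by
      rw [← pow_add]
      congr 1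
      omega
    simp only [Function.comp_apply]
    rw [h3, mul_assoc, h4, h5]
    ring
  rw [h2, intervalIntegral.integral_sub (Continuous.intervalIntegrable (by fun_prop) _ _)
    (Continuous.intervalIntegrable (by fun_prop) _ _)]
  have h6 : (∫ x in (0 : ℝ)..(Real.pi / 2), Real.sin x ^ n) = cW (n + 2) := rfl
  have h7 : (∫ x in (0 : ℝ)..(Real.pi / 2), Real.sin x ^ (n - 2)) = cW n := rfl
  rw [h6, h7, JLN_rec n hn]
  field_simp
  ring

theorem JLN_mono (n m : ℕ) (h : n ≤ m) : cW m ≤ cW n := by
  unfold cW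
  apply intervalIntegral.integral_mono_on (by positivity)
    (Continuous.intervalIntegrable (by fun_prop) _ _)
    (Continuous.intervalIntegrable (by fun_prop) _ _)
  intro x hx
  have h0 : 0 ≤ Real.sin x :=
    Real.sin_nonneg_of_nonneg_of_le_pi hx.1 (by linarith [hx.2, Real.pi_pos])
  exact pow_le_pow_of_le_one h0 (Real.sin_le_one x) (by omega)

theorem JLN_num (n : ℕ) (hn : 3 ≤ n) :
    cW n * (((n : ℝ) - 1) ^ 2 * (n + 3) * (5 * n + 1)) ≤
      2 * n * (n + 2) * ((n : ℝ) ^ 2 + n + 2) := by
  have hpi := Real.pi_lt_d4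
  have h2 := JLN_two
  have h3 := JLN_three
  have h4 : cW 4 = Real.pi / 4 := by
    have := JLN_rec 2 (by norm_num)
    norm_num at this
    rw [this, h2]
    ring
  have h5 : cW 5 = 2 / 3 := by
    have := JLN_rec 3 (by norm_num)
    norm_num at this
    rw [this, h3]
    norm_num
  have h6 : cW 6 = 3 * Real.pi / 16 := by
    have := JLN_rec 4 (by norm_num)
    norm_num at this
    rw [this, h4]
    ring
  have h7 : cW 7 = 8 / 15 := by
    have := JLN_rec 5 (by norm_num)
    norm_num at this
    rw [this, h5]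
    norm_num
  have h8 : cW 8 = 5 * Real.pi / 32 := by
    have := JLN_rec 6 (by norm_num)
    norm_num at this
    rw [this, h6]
    ring
  have h9 : cW 9 = 16 / 35 := by
    have := JLN_rec 7 (by norm_num)
    norm_num at this
    rw [this, h7]
    norm_num
  have h10 : cW 10 = 35 * Real.pi / 256 := by
    have := JLN_rec 8 (by norm_num)
    norm_num at this
    rw [this, h8]
    ring
  have h11 : cW 11 = 128 / 315 := by
    have := JLN_rec 9 (by norm_num)
    norm_num at this
    rw [this, h9]
    norm_num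
  have h12 : cW 12 = 63 * Real.pi / 512 := by
    have := JLN_rec 10 (by norm_num)
    norm_num at this
    rw [this, h10]
    ring
  by_cases hlt : n < 12
  · interval_cases n
    · rw [h3]; norm_num
    · rw [h4]; norm_num; linarith
    · rw [h5]; norm_num
    · rw [h6]; norm_num; linarith
    · rw [h7]; norm_num
    · rw [h8]; norm_num; linarith
    · rw [h9]; norm_num
    · rw [h10]; norm_num; linarith
    · rw [h11]; norm_num
  · have hn12 : 12 ≤ n := by omega
    have hc : cW n ≤ 2 / 5 := by
      have := JLN_mono 12 n hn12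
      rw [h12] at this
      linarith
    have hn' : (12 : ℝ) ≤ n := by exact_mod_cast hn12
    have hpos : 0 ≤ ((n : ℝ) - 1) ^ 2 * (n + 3) * (5 * n + 1) := by positivity
    have h13 := mul_le_mul_of_nonneg_right hc hpos
    refine h13.trans ?_
    have h14 : 2 * n * (n + 2) * ((n : ℝ) ^ 2 + n + 2) -
        2 / 5 * (((n : ℝ) - 1) ^ 2 * (n + 3) * (5 * n + 1)) =
        2 / 5 * (9 * (n : ℝ) ^ 3 + 44 * (n : ℝ) ^ 2 + 10 * n - 3) := by ring
    have h15 : 0 ≤ 2 / 5 * (9 * (n : ℝ) ^ 3 + 44 * (n : ℝ) ^ 2 + 10 * n - 3) := by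
      have : 0 ≤ 9 * (n : ℝ) ^ 3 + 44 * (n : ℝ) ^ 2 := by positivity
      linarith
    linarith

theorem JLN_cont (n : ℕ) (hn : 2 ≤ n) :
    Continuous fun x : ℝ => x ^ (n - 2) *
      (1 - (1 - yh n x) ^ (((n : ℝ) + 1) / ((n : ℝ) - 1))) := by
  have hn' : (2 : ℝ) ≤ n := by exact_mod_cast hn
  have hp : 0 ≤ ((n : ℝ) + 1) / ((n : ℝ) - 1) := by
    apply div_nonneg <;> linarith
  have hy : Continuous (yh n) := by
    unfold yh
    fun_prop
  have h1 : Continuous fun x : ℝ => (1 - yh n x) ^ (((n : ℝ) + 1) / ((n : ℝ) - 1)) :=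
    (continuous_const.sub hy).rpow_const (fun _ => Or.inr hp)
  exact (continuous_pow _).mul (continuous_const.sub h1)

theorem JLN (h1 : JYH_stmt) (h2 : JP2_stmt) (h3 : JNU_stmt) : JLN_stmt := by
  intro n hn
  obtain ⟨hy1, -, hy3, -⟩ := h1 n hn
  have hn' : (2 : ℝ) ≤ n := by exact_mod_cast hn
  have hn0 : (0 : ℝ) < n := by linarith
  have hp0 : 0 < ((n : ℝ) + 1) / ((n : ℝ) - 1) := by
    apply div_pos <;> linarith
  constructor
  · unfold ll
    apply intervalIntegral.intervalIntegral_pos_of_pos_on
      ((JLN_cont n hn).intervalIntegrable _ _) _ one_pos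
    intro x hx
    have hyx := hy1 x hx.1
    have hpos : 0 < yh n x := by
      unfold yh
      have h4 : 0 < 1 - x ^ 2 := by nlinarith [hx.1, hx.2]
      have h5 : 0 < Real.sqrt (1 - x ^ 2) := Real.sqrt_pos.mpr h4
      have h6 : 0 < ((n : ℝ) - 1) / n := by
        apply div_pos <;> linarith
      have h7 : 0 ≤ ((n : ℝ) - 1) / (n * (n + 2)) * (1 - x ^ 2) := by
        apply mul_nonneg _ h4.le
        apply div_nonneg
        · linarith
        · positivity
      have h8 : 0 ≤ 3 / (n * ((n : ℝ) + 2)) * (1 - x ^ 2) ^ 2 := by positivity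
      apply mul_pos h5
      linarith
    have h9 : (1 - yh n x) ^ (((n : ℝ) + 1) / ((n : ℝ) - 1)) < 1 :=
      Real.rpow_lt_one (by linarith [hyx.2]) (by linarith) hp0
    have h10 : 0 < x ^ (n - 2) := pow_pos hx.1 _
    apply mul_pos h10
    linarith
  · rcases hn.eq_or_lt with h | h
    · -- n = 2
      subst h
      have hle : ll 2 ≤ ∫ x in (0 : ℝ)..1, (4 * (x ^ (2 - 2) * Real.sqrt (1 - x ^ 2)) -
          x ^ (4 - 2) * Real.sqrt (1 - x ^ 2) - (3 - 3 * x ^ 2)) := by
        unfold ll
        apply intervalIntegral.integral_mono_on_of_le_Ioo (by norm_num)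
          ((JLN_cont 2 le_rfl).intervalIntegrable _ _)
          (Continuous.intervalIntegrable (by fun_prop) _ _)
        intro x hx
        have hyx := hy1 x hx.1
        have hyx3 := hy3 x ⟨hx.1.le, hx.2.le⟩
        have h4 : 0 < 1 - x ^ 2 := by nlinarith [hx.1, hx.2]
        set y := Real.sqrt (1 - x ^ 2) with hydef
        have hy0 : 0 ≤ y := Real.sqrt_nonneg _
        have hyy : y ^ 2 = 1 - x ^ 2 := Real.sq_sqrt h4.le
        have hyle : y ≤ 1 := by
          rw [hydef]
          apply Real.sqrt_le_one.mpr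
          nlinarith [sq_nonneg x]
        have h5 : yh 2 x ≤ y := by
          refine hyx3.trans ?_
          have : (1 : ℝ) - x ^ 2 / ((2 : ℕ) : ℝ) ≤ 1 := by
            have : 0 ≤ x ^ 2 / ((2 : ℕ) : ℝ) := by positivity
            linarith
          nlinarith
        have h6 : (((2 : ℕ) : ℝ) + 1) / (((2 : ℕ) : ℝ) - 1) = ((3 : ℕ) : ℝ) := by norm_num
        rw [h6, Real.rpow_natCast]
        have h7 : (1 - y) ^ 3 ≤ (1 - yh 2 x) ^ 3 :=
          pow_le_pow_left₀ (by linarith) (by linarith) 3
        have h8 : (1 - y) ^ 3 = 1 - 3 * y + 3 * y ^ 2 - y * y ^ 2 := by ring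
        rw [h8, hyy] at h7
        norm_num
        nlinarith
      refine hle.trans ?_
      have hW2 := JLN_W 2 le_rfl
      have hW4 := JLN_W 4 (by norm_num)
      have hc4 : cW 4 = Real.pi / 4 := by
        have := JLN_rec 2 le_rfl
        norm_num at this
        rw [this, JLN_two]
        ring
      rw [intervalIntegral.integral_sub (Continuous.intervalIntegrable (by fun_prop) _ _)
          (Continuous.intervalIntegrable (by fun_prop) _ _),
        intervalIntegral.integral_sub (Continuous.intervalIntegrable (by fun_prop) _ _)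
          (Continuous.intervalIntegrable (by fun_prop) _ _),
        intervalIntegral.integral_const_mul, hW2, hW4, hc4, JLN_two]
      have h5 : ∫ x in (0 : ℝ)..1, (3 - 3 * x ^ 2) = 2 := by
        rw [intervalIntegral.integral_sub (Continuous.intervalIntegrable (by fun_prop) _ _)
          (Continuous.intervalIntegrable (by fun_prop) _ _),
          intervalIntegral.integral_const_mul, integral_pow]
        norm_num
      rw [h5]
      have hpi := Real.pi_lt_d4
      norm_num
      linarith
    · -- n ≥ 3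
      have hn3 : 3 ≤ n := by omega
      have hn3' : (3 : ℝ) ≤ n := by exact_mod_cast hn3
      set p : ℝ := ((n : ℝ) + 1) / ((n : ℝ) - 1) with hpdef
      have hn1 : (0 : ℝ) < (n : ℝ) - 1 := by linarith
      have hp1 : 1 < p := by
        rw [hpdef, one_lt_div hn1]
        linarith
      have hp2 : p ≤ 2 := by
        rw [hpdef, div_le_iff₀ hn1]
        linarith
      have hpp : p * (p - 1) / 2 = p / ((n : ℝ) - 1) := by
        have : p - 1 = 2 / ((n : ℝ) - 1) := by
          rw [hpdef]
          field_simp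
          ring
        rw [this]
        ring
      have hle : ll n ≤ ∫ x in (0 : ℝ)..1, (p * (x ^ (n - 2) * Real.sqrt (1 - x ^ 2)) -
          p / n * (x ^ (n + 2 - 2) * Real.sqrt (1 - x ^ 2)) - p / ((n : ℝ) - 1) *
            (x ^ (n - 2) - (1 + 2 / n) * x ^ n + 2 / n * x ^ (n + 2))) := by
        unfold ll
        apply intervalIntegral.integral_mono_on_of_le_Ioo (by norm_num)
          ((JLN_cont n hn).intervalIntegrable _ _)
          (Continuous.intervalIntegrable (by fun_prop) _ _)
        intro x hx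
        have hyx := hy1 x hx.1
        have hyx3 := hy3 x ⟨hx.1.le, hx.2.le⟩
        have h4 : 0 < 1 - x ^ 2 := by nlinarith [hx.1, hx.2]
        have hx2 : 0 < x ^ 2 := by
          have := hx.1
          positivity
        set y := Real.sqrt (1 - x ^ 2) with hydef
        have hy0 : 0 ≤ y := Real.sqrt_nonneg _
        have hyy : y ^ 2 = 1 - x ^ 2 := Real.sq_sqrt h4.le
        have hyle : y ≤ 1 := by
          rw [hydef]
          apply Real.sqrt_le_one.mpr
          linarith
        have hxn : x ^ 2 / n ≤ 1 := by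
          rw [div_le_one hn0]
          linarith
        have hxn0 : 0 ≤ x ^ 2 / n := by positivity
        set L := y * (1 - x ^ 2 / n) with hLdef
        have hL1 : L ≤ 1 := by
          rw [hLdef]
          nlinarith
        have h5 := h2 p (yh n x) hp1 hp2 hyx.1 hyx.2.le
        rw [hpp] at h5
        set c := p / ((n : ℝ) - 1) with hcdef
        have hc0 : 0 < c := by positivity
        have hcp : 2 * c ≤ p := by
          rw [← hpp]
          nlinarith
        -- monotonicity
        have h6 : p * yh n x - c * yh n x ^ 2 ≤ p * L - c * L ^ 2 := by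
          have h7 : 0 ≤ L - yh n x := by linarith
          have h8 : 0 ≤ p - c * (L + yh n x) := by nlinarith [hyx.2]
          nlinarith [mul_nonneg h7 h8]
        have h9 : (1 - x ^ 2) * (1 - 2 * (x ^ 2 / n)) ≤ L ^ 2 := by
          have h10 : L ^ 2 = (1 - x ^ 2) * (1 - x ^ 2 / n) ^ 2 := by
            rw [hLdef, mul_pow, hyy]
          rw [h10]
          apply mul_le_mul_of_nonneg_left _ h4.le
          nlinarith [sq_nonneg (x ^ 2 / n)]
        have h11 : 1 - (1 - yh n x) ^ p ≤
            p * (y * (1 - x ^ 2 / n)) - c * ((1 - x ^ 2) * (1 - 2 * (x ^ 2 / n))) := by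
          have h12 := mul_le_mul_of_nonneg_left h9 hc0.le
          linarith
        have hxk : 0 < x ^ (n - 2) := pow_pos hx.1 _
        have h13 := mul_le_mul_of_nonneg_left h11 hxk.le
        refine h13.trans (le_of_eq ?_)
        have e1 : x ^ n = x ^ (n - 2) * x ^ 2 := by
          rw [← pow_add]
          congr 1
          omega
        have e2 : x ^ (n + 2) = x ^ (n - 2) * x ^ 4 := by
          rw [← pow_add]
          congr 1
          omega
        have e3 : n + 2 - 2 = n := by omega
        rw [e3, e2, e1]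
        field_simp
        ring
      refine hle.trans ?_
      have hWn := JLN_W n hn
      have hWn2 := JLN_W (n + 2) (by omega)
      have hI : ∫ x in (0 : ℝ)..1, (x ^ (n - 2) - (1 + 2 / (n : ℝ)) * x ^ n +
          2 / (n : ℝ) * x ^ (n + 2)) = 1 / ((n : ℝ) - 1) - (1 + 2 / (n : ℝ)) * (1 / ((n : ℝ) + 1)) +
            2 / (n : ℝ) * (1 / ((n : ℝ) + 3)) := by
        rw [intervalIntegral.integral_add (Continuous.intervalIntegrable (by fun_prop) _ _)
          (Continuous.intervalIntegrable (by fun_prop) _ _),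
          intervalIntegral.integral_sub (Continuous.intervalIntegrable (by fun_prop) _ _)
          (Continuous.intervalIntegrable (by fun_prop) _ _),
          intervalIntegral.integral_const_mul, intervalIntegral.integral_const_mul,
          integral_pow, integral_pow, integral_pow]
        have e1 : (((n - 2 : ℕ) : ℝ) + 1) = (n : ℝ) - 1 := by
          rw [Nat.cast_sub hn]
          push_cast
          ring
        rw [e1]
        push_cast
        simp only [one_pow]
        rw [zero_pow (by omega), zero_pow (by omega), zero_pow (by omega)]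
        ring
      rw [intervalIntegral.integral_sub (Continuous.intervalIntegrable (by fun_prop) _ _)
          (Continuous.intervalIntegrable (by fun_prop) _ _),
        intervalIntegral.integral_sub (Continuous.intervalIntegrable (by fun_prop) _ _)
          (Continuous.intervalIntegrable (by fun_prop) _ _),
        intervalIntegral.integral_const_mul, intervalIntegral.integral_const_mul,
        intervalIntegral.integral_const_mul, hWn, hWn2, hI, JLN_rec n hn]
      have hnum := JLN_num n hn3
      have hkey : ((n : ℝ) + 3) / (n + 2) * (cW n / n) - (p * (cW n / n) -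
          p / n * ((((n : ℝ) - 1) / n * cW n) / ((n + 2 : ℕ) : ℝ)) - p / ((n : ℝ) - 1) *
          (1 / ((n : ℝ) - 1) - (1 + 2 / (n : ℝ)) * (1 / ((n : ℝ) + 1)) +
            2 / (n : ℝ) * (1 / ((n : ℝ) + 3)))) =
          (2 * n * (n + 2) * ((n : ℝ) ^ 2 + n + 2) -
            cW n * (((n : ℝ) - 1) ^ 2 * (n + 3) * (5 * n + 1))) /
          ((n : ℝ) ^ 2 * ((n : ℝ) - 1) ^ 3 * (n + 2) * (n + 3)) := by
        rw [hpdef]
        push_cast
        field_simp
        ring
      have hD : 0 < (n : ℝ) ^ 2 * ((n : ℝ) - 1) ^ 3 * (n + 2) * (n + 3) := by positivity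
      have hq : 0 ≤ (2 * n * (n + 2) * ((n : ℝ) ^ 2 + n + 2) -
            cW n * (((n : ℝ) - 1) ^ 2 * (n + 3) * (5 * n + 1))) /
          ((n : ℝ) ^ 2 * ((n : ℝ) - 1) ^ 3 * (n + 2) * (n + 3)) := by
        apply div_nonneg _ hD.le
        linarith
      linarith

end Pool.Agent.CRO
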