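import Pool.Agent.helper58.CRO.SpecK
import Pool.Agent.helper79.CRO.Lib

set_option autoImplicit false

open scoped Manifold ContDiff Topology ENNReal
open MeasureTheory Set

noncomputable section

namespace Pool.Agent.CRO

variable {r0 : ℝ}

/-- the shell in the base -/
def KSH_Sh (ρa ρb : ℝ) : Set (En 2) := {x | ρa ≤ ‖x‖ ∧ ‖x‖ < ρb}

theorem KSH_Sh_meas (ρa ρb : ℝ) : MeasurableSet (KSH_Sh ρa ρb) :=
  (measurableSet_le measurable_const continuous_norm.measurable).inter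
    (measurableSet_lt continuous_norm.measurable measurable_const)

/-- a measurable version of `z ↦ G z.1 z.2` -/
theorem KSH_F (𝒢 : NChart 2 r0) : ∃ F : PS 2 → En 2, Measurable F ∧ ∀ z : PS 2, ‖z.1‖ < r0 → F z = 𝒢.G z.1 z.2 := by
  classical
  have hDo : IsOpen {z : PS 2 | ‖z.1‖ < r0} := isOpen_lt continuous_fst.norm continuous_const
  refine ⟨{z : PS 2 | ‖z.1‖ < r0}.piecewise (fun z => 𝒢.G z.1 z.2) (fun _ => 0), ?_, ?_⟩
  · refine ContinuousOn.measurable_piecewise ?_ continuousOn_const hDo.measurableSet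
    have h1 : ContinuousOn (fun z : PS 2 => 𝒢.G z.1) {z : PS 2 | ‖z.1‖ < r0} := by
      refine (𝒢.smooth.continuousOn).comp continuous_fst.continuousOn ?_
      intro z hz
      rw [mem_ball_zero_iff]
      exact hz
    exact h1.clm_apply continuous_snd.continuousOn
  · intro z hz
    rw [piecewise_eq_of_mem _ _ _ (show z ∈ {z : PS 2 | ‖z.1‖ < r0} from hz)]

/-- a measurable version of the region of speeds -/
theorem KSH_S (𝒢 : NChart 2 r0) (e : ℝ) : ∃ S : Set (PS 2), MeasurableSet S ∧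
    ∀ z : PS 2, ‖z.1‖ < r0 → (z ∈ S ↔ (e < sp 𝒢 z ∧ sp 𝒢 z < 1)) := by
  obtain ⟨F, hF, hF'⟩ := KSH_F 𝒢
  refine ⟨{z | e < Real.sqrt (inner ℝ (F z) z.2) ∧ Real.sqrt (inner ℝ (F z) z.2) < 1}, ?_, ?_⟩
  · have h1 : Measurable fun z : PS 2 => (inner ℝ (F z) z.2 : ℝ) := hF.inner measurable_snd
    exact (measurableSet_lt measurable_const h1.sqrt).inter (measurableSet_lt h1.sqrt measurable_const)
  · intro z hz
    show (e < Real.sqrt (inner ℝ (F z) z.2) ∧ Real.sqrt (inner ℝ (F z) z.2) < 1) ↔ _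
    unfold sp nrm2
    rw [hF' z hz]

theorem KSH_Fb_meas (𝒢 : NChart 2 r0) (e : ℝ) (x : En 2) (hx : ‖x‖ < r0) : MeasurableSet (Fb 𝒢 e x) := by
  obtain ⟨S, hS, hS'⟩ := KSH_S 𝒢 e
  have h1 : Fb 𝒢 e x = (fun p : En 2 => (x, p)) ⁻¹' S := by
    ext p
    exact (hS' (x, p) hx).symm
  rw [h1]
  exact measurable_prodMk_left hS

theorem KSH_Shl_meas (𝒢 : NChart 2 r0) (e ρa ρb : ℝ) (hb : ρb < r0) : MeasurableSet (Shl 𝒢 e ρa ρb) := by
  obtain ⟨S, hS, hS'⟩ := KSH_S 𝒢 e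
  have h1 : Shl 𝒢 e ρa ρb = (Prod.fst ⁻¹' KSH_Sh ρa ρb) ∩ S := by
    ext z
    constructor
    · intro hz
      exact ⟨hz.1, (hS' z (lt_trans hz.1.2 hb)).2 hz.2⟩
    · intro hz
      have h2 : ρa ≤ ‖z.1‖ ∧ ‖z.1‖ < ρb := hz.1
      exact ⟨h2, (hS' z (lt_trans h2.2 hb)).1 hz.2⟩
  rw [h1]
  exact (measurable_fst (KSH_Sh_meas ρa ρb)).inter hS

/-- Tonelli on the shell -/
theorem KSH_ton (𝒢 : NChart 2 r0) (e ρa ρb : ℝ) (hb : ρb < r0) (f g : PS 2 → ℝ≥0∞) (hf : Measurable f)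
    (hfg : ∀ z : PS 2, ‖z.1‖ < r0 → f z = g z) :
    ∫⁻ z in Shl 𝒢 e ρa ρb, g z = ∫⁻ x in KSH_Sh ρa ρb, ∫⁻ p in Fb 𝒢 e x, g (x, p) := by
  have hE := KSH_Shl_meas 𝒢 e ρa ρb hb
  have hfm : Measurable ((Shl 𝒢 e ρa ρb).indicator f) := hf.indicator hE
  have h0 : (Shl 𝒢 e ρa ρb).indicator g = (Shl 𝒢 e ρa ρb).indicator f := by
    refine indicator_congr fun z hz => ?_
    exact (hfg z (lt_trans hz.1.2 hb)).symm
  rw [← lintegral_indicator hE, h0, Measure.volume_eq_prod, lintegral_prod _ hfm.aemeasurable,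
    ← lintegral_indicator (KSH_Sh_meas ρa ρb)]
  refine lintegral_congr fun x => ?_
  by_cases hx : x ∈ KSH_Sh ρa ρb
  · rw [indicator_of_mem hx]
    have hx' : ‖x‖ < r0 := lt_trans hx.2 hb
    rw [← lintegral_indicator (KSH_Fb_meas 𝒢 e x hx')]
    refine lintegral_congr fun p => ?_
    by_cases hp : p ∈ Fb 𝒢 e x
    · have hz : (x, p) ∈ Shl 𝒢 e ρa ρb := ⟨hx, hp⟩
      rw [indicator_of_mem hp, indicator_of_mem hz, hfg (x, p) hx']
    · have hz : (x, p) ∉ Shl 𝒢 e ρa ρb := fun h => hp h.2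
      rw [indicator_of_notMem hp, indicator_of_notMem hz]
  · rw [indicator_of_notMem hx]
    have h1 : ∀ p, (Shl 𝒢 e ρa ρb).indicator f (x, p) = 0 := by
      intro p
      refine indicator_of_notMem ?_ _
      intro h
      exact hx h.1
    rw [lintegral_congr h1, lintegral_zero]

/-- a measurable version of `QQ` -/
theorem KSH_QQ (𝒢 : NChart 2 r0) (e : ℝ) (k : PS 2 → ℝ) (hk : Measurable k) :
    ∃ q : PS 2 → ℝ≥0∞, Measurable q ∧ ∀ z : PS 2, ‖z.1‖ < r0 → q z = QQ 𝒢 e k k z := by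
  obtain ⟨F, hF, hF'⟩ := KSH_F 𝒢
  obtain ⟨S, hS, hS'⟩ := KSH_S 𝒢 e
  have hm1 : Measurable fun w : PS 2 × En 2 => (w.1.1, w.2) := (measurable_fst.comp measurable_fst).prodMk measurable_snd
  have hg : Measurable fun w : PS 2 × En 2 => ((fun w : PS 2 × En 2 => (w.1.1, w.2)) ⁻¹' S).indicator
      (fun w : PS 2 × En 2 => ENNReal.ofReal (crs (F w.1) (F (w.1.1, w.2)) * k (w.1.1, w.2))) w := by
    refine Measurable.indicator ?_ (hm1 hS)
    refine Measurable.ennreal_ofReal ?_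
    refine Measurable.mul ?_ (hk.comp hm1)
    have h1 : ∀ i : Fin 2, Measurable fun w : PS 2 × En 2 => (F w.1) i := by
      intro i
      exact (measurable_pi_apply i).comp ((MeasurableEquiv.toLp 2 (Fin 2 → ℝ)).symm.measurable.comp (hF.comp measurable_fst))
    have h2 : ∀ i : Fin 2, Measurable fun w : PS 2 × En 2 => (F (w.1.1, w.2)) i := by
      intro i
      exact (measurable_pi_apply i).comp ((MeasurableEquiv.toLp 2 (Fin 2 → ℝ)).symm.measurable.comp (hF.comp hm1))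
    unfold crs
    exact (((h1 0).mul (h2 1)).sub ((h1 1).mul (h2 0))).abs
  refine ⟨fun z => ENNReal.ofReal (k z) * ∫⁻ p', ((fun w : PS 2 × En 2 => (w.1.1, w.2)) ⁻¹' S).indicator
      (fun w : PS 2 × En 2 => ENNReal.ofReal (crs (F w.1) (F (w.1.1, w.2)) * k (w.1.1, w.2))) (z, p'), ?_, ?_⟩
  · exact (hk.ennreal_ofReal).mul (Measurable.lintegral_prod_right' hg)
  · intro z hz
    unfold QQ
    dsimp only
    congr 1
    rw [← lintegral_indicator (KSH_Fb_meas 𝒢 e z.1 hz)]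
    refine lintegral_congr fun p => ?_
    by_cases hp : p ∈ Fb 𝒢 e z.1
    · have h1 : (z, p) ∈ (fun w : PS 2 × En 2 => (w.1.1, w.2)) ⁻¹' S := (hS' (z.1, p) hz).2 hp
      rw [indicator_of_mem hp, indicator_of_mem h1]
      dsimp only
      rw [hF' z hz, hF' (z.1, p) hz]
    · have h1 : (z, p) ∉ (fun w : PS 2 × En 2 => (w.1.1, w.2)) ⁻¹' S := fun h => hp ((hS' (z.1, p) hz).1 h)
      rw [indicator_of_notMem hp, indicator_of_notMem h1]

/-- the mass of the shell -/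
theorem KSH_mass (𝒢 : NChart 2 r0) (ρa ρb : ℝ) (hab : ρa < ρb) (hb : ρb < r0) :
    0 ≤ VV 𝒢 ρb - VV 𝒢 ρa ∧
    ∫⁻ x in KSH_Sh ρa ρb, ENNReal.ofReal (H79L_f 𝒢 x) = ENNReal.ofReal (VV 𝒢 ρb - VV 𝒢 ρa) := by
  have hVa : 0 ≤ VV 𝒢 ρa := setIntegral_nonneg measurableSet_ball fun x _ => H79L_f_nonneg 𝒢 x
  have hVab : VV 𝒢 ρa ≤ VV 𝒢 ρb := setIntegral_mono_set (H79L_f_int 𝒢 ρb hb)
    (Filter.Eventually.of_forall fun x => H79L_f_nonneg 𝒢 x)
    (Filter.Eventually.of_forall (Metric.ball_subset_ball hab.le))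
  have hSh : KSH_Sh ρa ρb = Metric.ball (0 : En 2) ρb \ Metric.ball (0 : En 2) ρa := by
    ext x
    rw [mem_sdiff, mem_ball_zero_iff, mem_ball_zero_iff, not_lt]
    exact And.comm
  have hsplit : ENNReal.ofReal (VV 𝒢 ρa) + ∫⁻ x in KSH_Sh ρa ρb, ENNReal.ofReal (H79L_f 𝒢 x) = ENNReal.ofReal (VV 𝒢 ρb) := by
    have h1 := lintegral_inter_add_sdiff (fun x => ENNReal.ofReal (H79L_f 𝒢 x)) (Metric.ball (0 : En 2) ρb)
      (measurableSet_ball (x := (0 : En 2)) (ε := ρa)) (μ := volume)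
    rw [inter_eq_self_of_subset_right (Metric.ball_subset_ball hab.le), ← hSh] at h1
    have h2 := H79L_VV_lint 𝒢 ρa (hab.trans hb) 1 zero_le_one
    have h3 := H79L_VV_lint 𝒢 ρb hb 1 zero_le_one
    simp only [one_mul] at h2 h3
    rw [h2, h3] at h1
    exact h1
  refine ⟨by linarith, ?_⟩
  have h4 : ENNReal.ofReal (VV 𝒢 ρa) + ∫⁻ x in KSH_Sh ρa ρb, ENNReal.ofReal (H79L_f 𝒢 x) =
      ENNReal.ofReal (VV 𝒢 ρa) + ENNReal.ofReal (VV 𝒢 ρb - VV 𝒢 ρa) := by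
    rw [hsplit, ← ENNReal.ofReal_add hVa (by linarith)]
    congr 1
    ring
  exact (ENNReal.add_right_inj ENNReal.ofReal_ne_top).1 h4

/-- supporting line -/
theorem KSH_supp (f : ℝ → ℝ) (hc : ConvexOn ℝ (Icc 0 1) f) (hm : MonotoneOn f (Icc 0 1)) (x : ℝ) (hx0 : 0 < x) (hx1 : x < 1) :
    ∃ s : ℝ, 0 ≤ s ∧ ∀ y ∈ Icc (0 : ℝ) 1, f x + s * (y - x) ≤ f y := by
  have hx : x ∈ Icc (0 : ℝ) 1 := ⟨hx0.le, hx1.le⟩
  -- slopes to the right
  let T : Set ℝ := (fun y => (f y - f x) / (y - x)) '' Ioc x 1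
  have hne : T.Nonempty := ⟨_, 1, ⟨hx1, le_refl _⟩, rfl⟩
  have hbd : ∀ z, 0 ≤ z → z < x → ∀ t ∈ T, (f x - f z) / (x - z) ≤ t := by
    rintro z hz0 hzx t ⟨y, hy, rfl⟩
    exact hc.slope_mono_adjacent ⟨hz0, (hzx.trans hx1).le⟩ ⟨(hx0.trans hy.1).le, hy.2⟩ hzx hy.1
  have hb : BddBelow T := ⟨(f x - f 0) / (x - 0), fun t ht => hbd 0 le_rfl hx0 t ht⟩
  refine ⟨sInf T, ?_, ?_⟩
  · refine le_trans ?_ (le_csInf hne fun t ht => hbd 0 le_rfl hx0 t ht)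
    have := hm (left_mem_Icc.2 zero_le_one) hx hx0.le
    apply div_nonneg <;> linarith
  · intro y hy
    rcases lt_trichotomy y x with h | h | h
    · have h1 : (f x - f y) / (x - y) ≤ sInf T := le_csInf hne fun t ht => hbd y hy.1 h t ht
      rw [div_le_iff₀ (by linarith)] at h1
      linarith
    · rw [h]
      linarith
    · have h1 : sInf T ≤ (f y - f x) / (y - x) := csInf_le hb ⟨y, ⟨h, hy.2⟩, rfl⟩
      rw [le_div_iff₀ (by linarith)] at h1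
      linarith

theorem KSH_main (h1 : KLX_stmt) (h2 : KF1_stmt) (𝒢 : NChart 2 r0) (e ρa ρb : ℝ) (he0 : 0 < e) (he1 : e < 1)
    (hab : ρa < ρb) (hb : ρb < r0) (k : PS 2 → ℝ) (hk : Measurable k) (hk01 : ∀ z, 0 ≤ k z ∧ k z ≤ 1) (X0 : ℝ) (hX0 : 0 < X0) (hX1 : X0 < 1)
    (hyp : ENNReal.ofReal (4 * c3 e * (VV 𝒢 ρb - VV 𝒢 ρa) * X0) ≤
        ∫⁻ z in Shl 𝒢 e ρa ρb, ENNReal.ofReal (k z * |inner ℝ z.1 z.2| / ‖z.1‖)) :
      ENNReal.ofReal (16 * c3 e ^ 2 * (VV 𝒢 ρb - VV 𝒢 ρa) * fl X0) ≤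
        ∫⁻ z in Shl 𝒢 e ρa ρb, QQ 𝒢 e k k z := by
  obtain ⟨hconv, hmono, -, hfl0, -, -, -⟩ := h2
  obtain ⟨s, hs0, hs⟩ := KSH_supp fl hconv hmono X0 hX0 hX1
  obtain ⟨hv0, hmass⟩ := KSH_mass 𝒢 ρa ρb hab hb
  set v := VV 𝒢 ρb - VV 𝒢 ρa with hv
  have hc : 0 < c3 e := by
    unfold c3
    have : e ^ 3 < 1 := pow_lt_one₀ he0.le he1 (by norm_num)
    linarith
  set c := c3 e with hcd
  have hgap : 0 ≤ s * X0 - fl X0 := by
    have := hs 0 (left_mem_Icc.2 zero_le_one)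
    rw [hfl0] at this
    linarith
  -- Tonelli
  have hm1 : Measurable fun z : PS 2 => ENNReal.ofReal (k z * |inner ℝ z.1 z.2| / ‖z.1‖) := by
    refine Measurable.ennreal_ofReal ?_
    have h3 : Measurable (fun z : PS 2 => (inner ℝ z.1 z.2 : ℝ)) := (continuous_fst.inner continuous_snd).measurable
    exact (hk.mul h3.abs).div continuous_fst.norm.measurable
  rw [KSH_ton 𝒢 e ρa ρb hb _ _ hm1 (fun _ _ => rfl)] at hyp
  obtain ⟨q, hq, hq'⟩ := KSH_QQ 𝒢 e k hk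
  rw [KSH_ton 𝒢 e ρa ρb hb q _ hq hq']
  -- the fibres
  have hne : ∀ᵐ x : En 2, x ≠ 0 := by
    have : volume ({0} : Set (En 2)) = 0 := by
      have h1 := Measure.addHaar_sphere (volume : Measure (En 2)) 0 0
      rwa [Metric.sphere_zero] at h1
    exact compl_mem_ae_iff.2 this
  have hfib : ∀ᵐ x ∂(volume.restrict (KSH_Sh ρa ρb)), ENNReal.ofReal (4 * c * s) * ∫⁻ p in Fb 𝒢 e x, ENNReal.ofReal (k (x, p) * |inner ℝ x p| / ‖x‖) ≤
      (∫⁻ p in Fb 𝒢 e x, QQ 𝒢 e k k (x, p)) + ENNReal.ofReal (16 * c ^ 2 * (s * X0 - fl X0)) * ENNReal.ofReal (H79L_f 𝒢 x) := by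
    filter_upwards [ae_restrict_of_ae hne, ae_restrict_mem (KSH_Sh_meas ρa ρb)] with x hx hxS
    have hx0 : 0 < ‖x‖ := norm_pos_iff.2 hx
    have hxr : ‖x‖ < r0 := lt_trans hxS.2 hb
    obtain ⟨X, hX, hI, hJ⟩ := h1 r0 𝒢 x e hx0 hxr he0 he1 (fun p => k (x, p)) (hk.comp measurable_prodMk_left) (fun p => hk01 _)
    have hf := H79L_f_nonneg 𝒢 x
    have e1 : (Real.sqrt (𝒢.G x).det)⁻¹ = H79L_f 𝒢 x := rfl
    rw [e1] at hI hJ
    rw [hI, ← ENNReal.ofReal_mul (by positivity), ← ENNReal.ofReal_mul (by positivity)]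
    have hXn := hX.1
    have hflX : 0 ≤ fl X := by
      have := hmono (left_mem_Icc.2 zero_le_one) hX hX.1
      rw [hfl0] at this
      exact this
    refine le_trans ?_ (add_le_add_left hJ _)
    rw [← ENNReal.ofReal_add (by positivity) (by positivity)]
    refine ENNReal.ofReal_le_ofReal ?_
    have h3 := hs X hX
    have h4 : 0 ≤ 16 * c ^ 2 * H79L_f 𝒢 x := by positivity
    have h5 := mul_le_mul_of_nonneg_left h3 h4
    have e2 : 4 * c * s * (4 * c3 e * X * H79L_f 𝒢 x) = 16 * c ^ 2 * H79L_f 𝒢 x * (s * X) := by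
      rw [← hcd]
      ring
    have e3 : 16 * c3 e ^ 2 * fl X * H79L_f 𝒢 x + 16 * c ^ 2 * (s * X0 - fl X0) * H79L_f 𝒢 x =
      16 * c ^ 2 * H79L_f 𝒢 x * fl X + 16 * c ^ 2 * H79L_f 𝒢 x * (s * X0 - fl X0) := by
      rw [← hcd]
      ring
    rw [e2, e3]
    linarith
  have hint := lintegral_mono_ae hfib
  have hfm : AEMeasurable (fun x => ENNReal.ofReal (H79L_f 𝒢 x)) (volume.restrict (KSH_Sh ρa ρb)) := by
    have h3 : AEMeasurable (H79L_f 𝒢) (volume.restrict (Metric.ball (0 : En 2) r0)) :=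
      (H79L_f_cont 𝒢).aemeasurable measurableSet_ball
    have h4 : KSH_Sh ρa ρb ⊆ Metric.ball (0 : En 2) r0 := by
      intro x hx
      rw [mem_ball_zero_iff]
      exact lt_trans hx.2 hb
    exact (h3.mono_measure (Measure.restrict_mono h4 le_rfl)).ennreal_ofReal
  rw [lintegral_const_mul' _ _ ENNReal.ofReal_ne_top, lintegral_add_right' _ (hfm.const_mul _),
    lintegral_const_mul' _ _ ENNReal.ofReal_ne_top, hmass] at hint
  have h3 := le_trans (mul_le_mul_right hyp (ENNReal.ofReal (4 * c * s))) hint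
  rw [← ENNReal.ofReal_mul (by positivity), ← ENNReal.ofReal_mul (by positivity)] at h3
  have e4 : 4 * c * s * (4 * c * v * X0) = 16 * c ^ 2 * v * fl X0 + 16 * c ^ 2 * (s * X0 - fl X0) * v := by ring
  have hfl : 0 ≤ fl X0 := by
    have := hmono (left_mem_Icc.2 zero_le_one) ⟨hX0.le, hX1.le⟩ hX0.le
    rw [hfl0] at this
    exact this
  rw [e4, ENNReal.ofReal_add (by positivity) (by positivity)] at h3
  exact (ENNReal.add_le_add_iff_right ENNReal.ofReal_ne_top).1 h3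

theorem KSH (h1 : KLX_stmt) (h2 : KF1_stmt) : KSH_stmt := by
  intro r0 𝒢 e ρa ρb he0 he1 ha hab hb k hk hk01 X0 hX0 hX1 hyp
  obtain ⟨hv0, -⟩ := KSH_mass 𝒢 ρa ρb hab hb
  have hc : 0 < c3 e := by
    unfold c3
    have : e ^ 3 < 1 := pow_lt_one₀ he0.le he1 (by norm_num)
    linarith
  have h2' := h2
  obtain ⟨-, -, hcont, hfl0, -, -, -⟩ := h2'
  rcases hX0.eq_or_lt with h | h
  · rw [← h, hfl0, mul_zero, ENNReal.ofReal_zero]
    exact zero_le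
  rcases hX1.lt_or_eq with h' | h'
  · exact KSH_main h1 h2 𝒢 e ρa ρb he0 he1 hab hb k hk hk01 X0 h h' hyp
  · -- the limit
    have hlim : Filter.Tendsto (fun X : ℝ => ENNReal.ofReal (16 * c3 e ^ 2 * (VV 𝒢 ρb - VV 𝒢 ρa) * fl X)) (𝓝[<] 1)
        (𝓝 (ENNReal.ofReal (16 * c3 e ^ 2 * (VV 𝒢 ρb - VV 𝒢 ρa) * fl 1))) := by
      refine Filter.Tendsto.mono_left ?_ nhdsWithin_le_nhds
      exact ENNReal.tendsto_ofReal ((continuous_const.mul hcont).tendsto 1)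
    rw [h']
    refine le_of_tendsto hlim ?_
    have hev : ∀ᶠ X : ℝ in 𝓝[<] 1, X ∈ Ioo (0 : ℝ) 1 := Ioo_mem_nhdsLT (by norm_num)
    filter_upwards [hev] with X hX
    refine KSH_main h1 h2 𝒢 e ρa ρb he0 he1 hab hb k hk hk01 X hX.1 hX.2 ?_
    refine le_trans (ENNReal.ofReal_le_ofReal ?_) hyp
    rw [h']
    have h5 : 0 ≤ 4 * c3 e * (VV 𝒢 ρb - VV 𝒢 ρa) := by positivity
    exact mul_le_mul_of_nonneg_left hX.2.le h5

end Pool.Agent.CRO
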