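import Pool.Agent.helper58.CRO.SpecL

/-!
# Row cro:LVI
-/

open scoped Manifold ContDiff Topology ENNReal
open MeasureTheory Set Bundle Filter

noncomputable section

namespace Pool.Agent.CRO

theorem LVI_avg (g : ℝ → ℝ) (hg : Antitone g) (a b : ℝ) (hab : a ≤ b) :
    ∃ A : ℝ, A * (b - a) = (∫ s in a..b, g s) ∧ g b ≤ A ∧ A ≤ g a := by
  rcases hab.eq_or_lt with h | h
  · subst h
    exact ⟨g a, by simp, le_rfl, le_rfl⟩
  · have hba : 0 < b - a := by linarith
    have hi : IntervalIntegrable g volume a b := hg.intervalIntegrable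
    refine ⟨(∫ s in a..b, g s) / (b - a), div_mul_cancel₀ _ hba.ne', ?_, ?_⟩
    · rw [le_div_iff₀ hba]
      have h1 : (∫ _s in a..b, g b) ≤ ∫ s in a..b, g s :=
        intervalIntegral.integral_mono_on hab (by simp) hi (fun x hx => hg hx.2)
      rw [intervalIntegral.integral_const, smul_eq_mul] at h1
      linarith
    · rw [div_le_iff₀ hba]
      have h1 : (∫ s in a..b, g s) ≤ ∫ _s in a..b, g a :=
        intervalIntegral.integral_mono_on hab hi (by simp) (fun x hx => hg hx.1)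
      rw [intervalIntegral.integral_const, smul_eq_mul] at h1
      linarith

theorem LVI_abel (A y : ℕ → ℝ) (hy0 : y 0 = 0) (m : ℕ) :
    ∑ k ∈ Finset.Ico 1 (m + 1), (A k - A (k + 1)) * y k =
      (∑ k ∈ Finset.Ico 1 (m + 1), A k * (y k - y (k - 1))) - A (m + 1) * y m := by
  induction m with
  | zero => simp [hy0]
  | succ m ih =>
    have h1 : 1 ≤ m + 1 := by omega
    rw [Finset.sum_Ico_succ_top h1 (fun k => (A k - A (k + 1)) * y k),
      Finset.sum_Ico_succ_top h1 (fun k => A k * (y k - y (k - 1))), ih]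
    simp only [Nat.add_sub_cancel]
    ring

theorem LVI_tele (A : ℕ → ℝ) (a b : ℕ) (h : a ≤ b) :
    ∑ k ∈ Finset.Ico a b, (A k - A (k + 1)) = A a - A b := by
  induction b, h using Nat.le_induction with
  | base => simp
  | succ b hb ih =>
    rw [Finset.sum_Ico_succ_top hb, ih]
    ring

theorem LVI (h1 : LGE_stmt) (h2 : JON_stmt) (h3 : JNU_stmt) (h4 : JVL_stmt) : LVI_stmt := by
  intro n r0 𝒢 L R hn hE hL hR hRr hRL N g mx hN hg hg0 hint hmx
  obtain ⟨hX0, hcW, hkn, hk1, -, hkk, -⟩ := h3 n hn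
  have hn0 : (0 : ℝ) < n := by exact_mod_cast (by omega : 0 < n)
  have hn1 : (0 : ℝ) < (n : ℝ) - 1 := by
    have : (2 : ℝ) ≤ n := by exact_mod_cast hn
    linarith
  have hN0 : (0 : ℝ) < N := by exact_mod_cast (by omega : 0 < N)
  have hh : 0 < R / N := by positivity
  obtain ⟨⟨c0, C0, hc0, hC0, hvb⟩, -⟩ := h4 n r0 𝒢 R hn hR hRr
  have hvv : ∀ j ∈ Finset.Icc 1 N, 0 < vv 𝒢 R N j := by
    intro j hj
    have h6 := (hvb N j hN hj).1
    have hj1 : (0 : ℝ) < j := by
      have := (Finset.mem_Icc.mp hj).1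
      exact_mod_cast (by omega : 0 < j)
    have : 0 < c0 * (j * (R / N)) ^ (n - 1) * (R / N) := by positivity
    linarith
  obtain ⟨y, Lm, hy0, hymono, hthr, hfull, hLsum⟩ := h1 n r0 𝒢 L R hn hE hL hR hRr hRL N hN
  have hav : ∀ k : ℕ, ∃ A : ℝ, (1 ≤ k ∧ k < N) →
      (A * (y k - y (k - 1)) = (∫ s in (y (k - 1))..(y k), g s) ∧
      g (y k) ≤ A ∧ A ≤ g (y (k - 1))) := by
    intro k
    by_cases hk : 1 ≤ k ∧ k < N
    · have h6 : y (k - 1) ≤ y k := by
        have h7 := hymono (k - 1) (by omega)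
        rwa [Nat.sub_add_cancel hk.1] at h7
      obtain ⟨A, h7⟩ := LVI_avg g hg (y (k - 1)) (y k) h6
      exact ⟨A, fun _ => h7⟩
    · exact ⟨0, fun h => absurd h hk⟩
  choose A' hAB using hav
  let A : ℕ → ℝ := fun k => if k = 0 then g 0 else if k < N then A' k else 0
  have hA0 : A 0 = g 0 := by simp [A]
  have hAk : ∀ k, 1 ≤ k → k < N → A k = A' k := by
    intro k hk1 hk2
    have : k ≠ 0 := by omega
    simp only [A, this, if_false, hk2, if_true]
  have hAN : ∀ k, N ≤ k → A k = 0 := by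
    intro k hk
    have h6 : k ≠ 0 := by omega
    have h7 : ¬ k < N := by omega
    simp only [A, h6, h7, if_false]
  have hAlow : ∀ k, 1 ≤ k → k < N → g (y k) ≤ A k := by
    intro k hk1 hk2
    rw [hAk k hk1 hk2]
    exact (hAB k ⟨hk1, hk2⟩).2.1
  have hAup : ∀ k, 1 ≤ k → A k ≤ g (y (k - 1)) := by
    intro k hk1
    by_cases hk2 : k < N
    · rw [hAk k hk1 hk2]
      exact (hAB k ⟨hk1, hk2⟩).2.2
    · rw [hAN k (by omega)]
      exact hg0 _
  have hApos : ∀ k, 0 ≤ A k := by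
    intro k
    rcases Nat.eq_zero_or_pos k with h | h
    · rw [h, hA0]
      exact hg0 _
    · by_cases hk2 : k < N
      · exact (hg0 _).trans (hAlow k h hk2)
      · rw [hAN k (by omega)]
  have hAanti : Antitone A := by
    apply antitone_nat_of_succ_le
    intro k
    by_cases hk2 : k + 1 < N
    · rcases Nat.eq_zero_or_pos k with h | h
      · subst h
        have h6 := hAup 1 le_rfl
        simp only [Nat.sub_self, hy0] at h6
        rw [hA0]
        exact h6
      · exact (hAup (k + 1) (by omega)).trans (hAlow k h (by omega))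
    · rw [hAN (k + 1) (by omega)]
      exact hApos k
  -- the sum of the A
  have hAsum : ∑ k ∈ Finset.Ico 1 N, A k * (y k - y (k - 1)) ≤
      ∫ s in Ioi (0 : ℝ), g s := by
    have h6 : ∑ k ∈ Finset.Ico 1 N, A k * (y k - y (k - 1)) =
        ∫ s in (y 0)..(y (N - 1)), g s := by
      rw [← intervalIntegral.sum_integral_adjacent_intervals
        (fun k _ => hg.intervalIntegrable), Finset.sum_Ico_eq_sum_range]
      apply Finset.sum_congr rfl
      intro i hi
      rw [Finset.mem_range] at hi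
      rw [hAk (1 + i) (by omega) (by omega), (hAB (1 + i) ⟨by omega, by omega⟩).1]
      have h7 : 1 + i - 1 = i := by omega
      rw [h7, add_comm 1 i]
    have hyN : ∀ k, k < N → 0 ≤ y k := by
      intro k
      induction k with
      | zero => intro _; rw [hy0]
      | succ k ih => intro hk; exact (ih (by omega)).trans (hymono k hk)
    have h8 : (0 : ℝ) ≤ y (N - 1) := hyN (N - 1) (by omega)
    rw [h6, hy0, intervalIntegral.integral_of_le h8]
    apply setIntegral_mono_set hint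
    · exact Filter.Eventually.of_forall (fun s => hg0 s)
    · exact LE.le.eventuallyLE Ioc_subset_Ioi_self
  -- JON for each shell
  have hJ : ∀ j ∈ Finset.Icc 1 N, 2 * kap (n - 1) * (((n : ℝ) - 1) / n) * vv 𝒢 R N j *
        ((∫ φ in (0 : ℝ)..(Real.pi / 2), g (vv 𝒢 R N j / (R / N) * Real.sin φ ^ (n - 1)) *
          Real.sin φ ^ (n - 2)) - cW n * (g (y (j - 1)) - A j)) ≤
      (∑ k ∈ Finset.Ico 1 j, (A k - A (k + 1)) * Lm k j) + A j * (kap n * vv 𝒢 R N j) := by
    intro j hj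
    obtain ⟨hj1, hjN⟩ := Finset.mem_Icc.mp hj
    have hv := hvv j hj
    refine h2 n hn j (vv 𝒢 R N j) (vv 𝒢 R N j / (R / N)) y (fun k => Lm k j) A
      g hj1 hv (by positivity) hy0 (fun k hk => hymono k (by omega)) hg
      hg0 ?_ (fun k _ _ => hAanti (Nat.le_succ k)) ?_ (hApos j)
      (hAup j hj1)
    · intro k hk1 hk2 c hc
      have h6 := hthr k j hk1 hk2 hjN c hc
      have h7 : 2 * kap (n - 1) * vv 𝒢 R N j * (y k / (n * (vv 𝒢 R N j / (R / N))) - BTc n c) =
          2 * kap (n - 1) * (R / N * y k / n - BTc n c * vv 𝒢 R N j) := by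
        field_simp
      rw [h7]
      exact h6
    · intro k hk1 hk2
      rw [hAk k hk1 (by omega)]
      exact (hAB k ⟨hk1, by omega⟩).1
  -- the right sides
  have hrow : ∀ j ∈ Finset.Icc 1 N,
      (∑ k ∈ Finset.Ico 1 j, (A k - A (k + 1)) * Lm k j) + A j * (kap n * vv 𝒢 R N j) =
        ∑ k ∈ Finset.Ico 1 N, (A k - A (k + 1)) * Lm k j := by
    intro j hj
    obtain ⟨hj1, hjN⟩ := Finset.mem_Icc.mp hj
    rw [← Finset.sum_Ico_consecutive _ hj1 hjN]
    congr 1
    have h6 : ∑ k ∈ Finset.Ico j N, (A k - A (k + 1)) * Lm k j =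
        ∑ k ∈ Finset.Ico j N, (A k - A (k + 1)) * (kap n * vv 𝒢 R N j) := by
      apply Finset.sum_congr rfl
      intro k hk
      rw [Finset.mem_Ico] at hk
      rw [hfull k j hj1 hk.1 hk.2]
    rw [h6, ← Finset.sum_mul, LVI_tele A j N hjN, hAN N le_rfl, sub_zero]
  have hR2 : ∑ j ∈ Finset.Icc 1 N, ∑ k ∈ Finset.Ico 1 N, (A k - A (k + 1)) * Lm k j ≤
      2 * R * kap (n - 1) / n * ∫ s in Ioi (0 : ℝ), g s := by
    rw [Finset.sum_comm]
    have h6 : ∑ k ∈ Finset.Ico 1 N, ∑ j ∈ Finset.Icc 1 N, (A k - A (k + 1)) * Lm k j ≤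
        ∑ k ∈ Finset.Ico 1 N, 2 * R * kap (n - 1) / n * ((A k - A (k + 1)) * y k) := by
      apply Finset.sum_le_sum
      intro k hk
      rw [Finset.mem_Ico] at hk
      rw [← Finset.mul_sum]
      have h7 := mul_le_mul_of_nonneg_left (hLsum k hk.1 hk.2)
        (sub_nonneg.mpr (hAanti (Nat.le_succ k)))
      refine h7.trans (le_of_eq ?_)
      simp only [Nat.succ_eq_add_one]
      ring
    refine h6.trans ?_
    rw [← Finset.mul_sum]
    apply mul_le_mul_of_nonneg_left _ (by positivity)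
    obtain ⟨M, rfl⟩ : ∃ M, N = M + 1 := ⟨N - 1, by omega⟩
    rw [LVI_abel A y hy0 M, hAN (M + 1) le_rfl, zero_mul, sub_zero]
    exact hAsum
  -- telescoping
  have htel : ∑ j ∈ Finset.Icc 1 N, (g (y (j - 1)) - A j) ≤ g 0 := by
    have h6 : ∀ m, m < N → ∑ j ∈ Finset.Icc 1 m, (g (y (j - 1)) - A j) ≤
        g 0 - g (y m) := by
      intro m
      induction m with
      | zero => intro _; simp [hy0]
      | succ m ih =>
        intro hm
        rw [Finset.sum_Icc_succ_top (by omega)]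
        have h7 := ih (by omega)
        have h8 := hAlow (m + 1) (by omega) hm
        simp only [Nat.add_sub_cancel] at *
        linarith
    obtain ⟨M, rfl⟩ : ∃ M, N = M + 1 := ⟨N - 1, by omega⟩
    rw [Finset.sum_Icc_succ_top (by omega), hAN (M + 1) le_rfl]
    have h7 := h6 M (by omega)
    simp only [Nat.add_sub_cancel, sub_zero]
    linarith
  have herr : ∑ j ∈ Finset.Icc 1 N, vv 𝒢 R N j * (g (y (j - 1)) - A j) ≤ mx * g 0 := by
    have hmx0 : 0 < mx := by
      have h7 : (1 : ℕ) ∈ Finset.Icc 1 N := Finset.mem_Icc.mpr ⟨le_rfl, hN⟩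
      exact lt_of_lt_of_le (hvv 1 h7) (hmx 1 h7)
    calc ∑ j ∈ Finset.Icc 1 N, vv 𝒢 R N j * (g (y (j - 1)) - A j)
        ≤ ∑ j ∈ Finset.Icc 1 N, mx * (g (y (j - 1)) - A j) := by
          apply Finset.sum_le_sum
          intro j hj
          apply mul_le_mul_of_nonneg_right (hmx j hj)
          have h7 := hAup j (Finset.mem_Icc.mp hj).1
          linarith
      _ = mx * ∑ j ∈ Finset.Icc 1 N, (g (y (j - 1)) - A j) := by
          rw [Finset.mul_sum]
      _ ≤ mx * g 0 := mul_le_mul_of_nonneg_left htel hmx0.le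
  -- the sum
  have hS := (Finset.sum_le_sum hJ).trans ((Finset.sum_congr rfl hrow).le.trans hR2)
  set I : ℕ → ℝ := fun j => ∫ φ in (0 : ℝ)..(Real.pi / 2),
    g (vv 𝒢 R N j / (R / N) * Real.sin φ ^ (n - 1)) * Real.sin φ ^ (n - 2) with hI
  have hS2 : ∑ j ∈ Finset.Icc 1 N, 2 * kap (n - 1) * (((n : ℝ) - 1) / n) * vv 𝒢 R N j *
        (I j - cW n * (g (y (j - 1)) - A j)) =
      2 * kap (n - 1) / n * (((n : ℝ) - 1) * ∑ j ∈ Finset.Icc 1 N, vv 𝒢 R N j * I j -
        ((n : ℝ) - 1) * cW n * ∑ j ∈ Finset.Icc 1 N, vv 𝒢 R N j * (g (y (j - 1)) - A j)) := by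
    rw [Finset.mul_sum, Finset.mul_sum, ← Finset.sum_sub_distrib, Finset.mul_sum]
    apply Finset.sum_congr rfl
    intro j _
    ring
  have hS3 : 2 * kap (n - 1) / n * (((n : ℝ) - 1) * ∑ j ∈ Finset.Icc 1 N, vv 𝒢 R N j * I j -
        ((n : ℝ) - 1) * cW n * ∑ j ∈ Finset.Icc 1 N, vv 𝒢 R N j * (g (y (j - 1)) - A j)) ≤
      2 * kap (n - 1) / n * (R * ∫ s in Ioi (0 : ℝ), g s) := by
    rw [← hS2]
    refine hS.trans (le_of_eq ?_)
    ring
  have hS4 := le_of_mul_le_mul_left hS3 (by positivity)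
  have hS5 := mul_le_mul_of_nonneg_left herr (mul_pos hn1 hcW).le
  have hgoal : ((n : ℝ) - 1) * ∑ j ∈ Finset.Icc 1 N, vv 𝒢 R N j * I j ≤
      R * (∫ s in Ioi (0 : ℝ), g s) + ((n : ℝ) - 1) * cW n * mx * g 0 := by
    linarith
  exact hgoal

end Pool.Agent.CRO
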